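import Pool.Agent.H25.Bn
import Pool.Agent.H21.Sim

set_option autoImplicit false

namespace Pool.Agent.Results.MP_1ffe94_lc.InP
open Pool.Agent.H11.PT Pool.Agent.H25.BN Finset

open Classical in
/-- majority dominating function -/
def IsMDF {V : Type} [Fintype V] (G : SimpleGraph V) (f : V → ℤ) : Prop :=
  (∀ v, f v = 1 ∨ f v = -1) ∧ Fintype.card V ≤
    2 * #{v | 1 ≤ ∑ u ∈ (univ.filter fun u => u = v ∨ G.Adj u v), f u}

/-- MAJ-CMP: part sizes and the bound `k` are given in binary -/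
def MAJ (y : List (List Bool) × List Bool) : Prop :=
  y.1 ≠ [] ∧ (∀ n ∈ y.1, 0 < bin n) ∧ 0 < bin y.2 ∧
    ∃ f, IsMDF (SimpleGraph.completeMultipartiteGraph
      fun i : Fin y.1.length => Fin (bin (y.1.getD i []))) f ∧ ∑ v, f v ≤ bin y.2

def hap (W : ℤ) (n p : ℕ) : ℕ :=
  if 2 * (p : ℤ) - n ≤ W - 2 then n else if 2 * (p : ℤ) - n ≤ W then p else 0

section
variable {m : ℕ} {n : ℕ → ℕ}

def pf (f : (Σ i : Fin m, Fin (n i)) → ℤ) (i : Fin m) : ℕ := #{x | f ⟨i, x⟩ = 1}

theorem part_sum {f : (Σ i : Fin m, Fin (n i)) → ℤ} (h : ∀ v, f v = 1 ∨ f v = -1) (i : Fin m) :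
    ∑ x, f ⟨i, x⟩ = 2 * (pf f i : ℤ) - n i := by
  have : ∀ x, f ⟨i, x⟩ = 2 * (if f ⟨i, x⟩ = 1 then 1 else 0) - 1 := fun x => by
    rcases h ⟨i, x⟩ with e | e <;> simp [e]
  rw [sum_congr rfl fun x _ => this x, sum_sub_distrib, ← mul_sum]
  simp [pf]

theorem nb_sum (f : (Σ i : Fin m, Fin (n i)) → ℤ) (v : Σ i : Fin m, Fin (n i))
    {_ : DecidablePred fun u => u = v ∨
      (SimpleGraph.completeMultipartiteGraph fun i : Fin m => Fin (n i)).Adj u v} :
    ∑ u ∈ (univ.filter fun u => u = v ∨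
      (SimpleGraph.completeMultipartiteGraph fun i : Fin m => Fin (n i)).Adj u v), f u =
      ∑ u, f u - ∑ x, f ⟨v.1, x⟩ + f v := by
  have e : ∑ x, f ⟨v.1, x⟩ = ∑ u, if u.1 = v.1 then f u else 0 := by
    rw [Fintype.sum_sigma, sum_eq_single v.1] <;> simp +contextual
  have e2 : f v = ∑ u, if u = v then f u else 0 := by simp
  rw [e, e2, sum_filter, ← sum_sub_distrib, ← sum_add_distrib]
  refine sum_congr rfl fun u _ => ?_
  by_cases h : u = v
  · simp [h]
  · by_cases h1 : u.1 = v.1 <;> simp [h, h1]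

theorem mdf_iff {f : (Σ i : Fin m, Fin (n i)) → ℤ} (h : ∀ v, f v = 1 ∨ f v = -1) :
    IsMDF (SimpleGraph.completeMultipartiteGraph fun i : Fin m => Fin (n i)) f ↔
      ∑ i : Fin m, n i ≤ 2 * ∑ i : Fin m, hap (∑ u, f u) (n i) (pf f i) := by
  classical
  unfold IsMDF
  rw [and_iff_right h]
  simp only [Fintype.card_sigma, Fintype.card_fin]
  rw [card_filter, Fintype.sum_sigma]
  refine iff_of_eq (congrArg (fun z => _ ≤ 2 * z) (sum_congr rfl fun i _ => ?_))
  simp only [nb_sum, part_sum h, hap]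
  generalize ∑ u, f u = W
  split_ifs with h1 h2
  · rw [sum_congr rfl fun x _ => if_pos (by rcases h ⟨i, x⟩ with e | e <;> omega)]; simp
  · refine Eq.trans ?_ (card_filter _ _).symm
    refine sum_congr rfl fun x _ => if_congr ?_ rfl rfl
    rcases h ⟨i, x⟩ with e | e <;> omega
  · rw [sum_congr rfl fun x _ => if_neg (by rcases h ⟨i, x⟩ with e | e <;> omega)]; simp

def Good (m : ℕ) (n : ℕ → ℕ) (W : ℤ) (p : ℕ → ℕ) : Prop :=
  (∀ i < m, p i ≤ n i) ∧ ∑ i ∈ range m, n i ≤ 2 * ∑ i ∈ range m, hap W (n i) (p i)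

theorem key (k : ℤ) : (∃ f, IsMDF (SimpleGraph.completeMultipartiteGraph
    fun i : Fin m => Fin (n i)) f ∧ ∑ v, f v ≤ k) ↔ ∃ (p : ℕ → ℕ) (W : ℤ), W ≤ k ∧
      W + (∑ i ∈ range m, n i : ℕ) = 2 * (∑ i ∈ range m, p i : ℕ) ∧ Good m n W p := by
  have tot : ∀ (f : (Σ i : Fin m, Fin (n i)) → ℤ) (p : ℕ → ℕ), (∀ v, f v = 1 ∨ f v = -1) →
      (∀ i : Fin m, pf f i = p i) →
      (∑ v, f v + (∑ i ∈ range m, n i : ℕ) = 2 * (∑ i ∈ range m, p i : ℕ)) ∧
      (IsMDF (SimpleGraph.completeMultipartiteGraph fun i : Fin m => Fin (n i)) f ↔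
        ∑ i ∈ range m, n i ≤ 2 * ∑ i ∈ range m, hap (∑ u, f u) (n i) (p i)) := by
    intro f p h e
    rw [mdf_iff h]
    simp only [e, ← Fin.sum_univ_eq_sum_range]
    refine ⟨?_, trivial⟩
    rw [Fintype.sum_sigma]
    simp only [part_sum h, e, sum_sub_distrib, ← mul_sum]
    push_cast; ring
  constructor
  · rintro ⟨f, hf, hk⟩
    obtain ⟨a, b⟩ := tot f (fun i => if h : i < m then pf f ⟨i, h⟩ else 0) hf.1 (by simp)
    refine ⟨_, _, hk, a, fun i hi => ?_, b.1 hf⟩
    simp only [hi, dif_pos, pf]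
    exact (card_filter_le _ _).trans (by simp)
  · rintro ⟨p, W, hk, e, g1, g2⟩
    obtain ⟨a, b⟩ := tot (fun v => if (v.2 : ℕ) < p v.1 then 1 else -1) p
      (fun v => by split_ifs <;> simp) (fun i => by
        have := g1 i i.2
        have e : ∀ x : Fin (n i), ((if (x : ℕ) < p i then 1 else -1 : ℤ) = 1) ↔ (x : ℕ) < p i :=
          fun x => by split_ifs with h <;> simp [h]
        simp only [pf, e, Fin.card_filter_val_lt]; omega)
    have e3 : _ = W := add_right_cancel (a.trans e.symm)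
    exact ⟨_, b.2 (by rw [e3]; exact g2), e3.trans_le hk⟩

theorem between (j : ℕ) (lo hi : ℕ → ℕ) (T : ℕ) (h : ∀ i < j, lo i ≤ hi i)
    (h1 : ∑ i ∈ range j, lo i ≤ T) (h2 : T ≤ ∑ i ∈ range j, hi i) :
    ∃ q : ℕ → ℕ, (∀ i < j, lo i ≤ q i ∧ q i ≤ hi i) ∧ ∑ i ∈ range j, q i = T := by
  induction j generalizing T with
  | zero => exact ⟨lo, by simp, by simp at h2 ⊢; omega⟩
  | succ j ih =>
    rw [sum_range_succ] at h1 h2
    have a : ∑ i ∈ range j, lo i ≤ ∑ i ∈ range j, hi i :=
      sum_le_sum fun i hi => h i (by simp at hi; omega)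
    have b := h j (by omega)
    obtain ⟨q, hq, e⟩ := ih (max (∑ i ∈ range j, lo i) (T - hi j)) (fun i hi => h i (by omega))
      (by omega) (by omega)
    refine ⟨fun i => if i < j then q i else T - max (∑ i ∈ range j, lo i) (T - hi j),
      fun i hi => ?_, ?_⟩
    · by_cases c : i < j
      · simpa [c] using hq i c
      · obtain rfl : i = j := by omega
        simp only [c, if_false]; omega
    · rw [sum_range_succ, sum_congr rfl fun i hi => if_pos (mem_range.1 hi), e]
      simp only [lt_irrefl, if_false]; omega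

theorem down (W : ℕ) (p : ℕ → ℕ) (g : Good m n W p) (h1 : (∑ i ∈ range m, n i + W) % 2 = 0)
    (h2 : ∑ i ∈ range m, n i + W ≤ 2 * ∑ i ∈ range m, p i) : ∃ q : ℕ → ℕ,
      (W : ℤ) + (∑ i ∈ range m, n i : ℕ) = 2 * (∑ i ∈ range m, q i : ℕ) ∧ Good m n W q := by
  obtain ⟨q, hq, e⟩ := between m (fun _ => 0) p ((∑ i ∈ range m, n i + W) / 2) (by simp) (by simp)
    (by omega)
  refine ⟨q, by omega, fun i hi => (hq i hi).2.trans (g.1 i hi), g.2.trans
    (Nat.mul_le_mul_left _ (sum_le_sum fun i hi => ?_))⟩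
  have := hq i (mem_range.1 hi)
  have := g.1 i (mem_range.1 hi)
  unfold hap; split_ifs <;> omega

def Feas (n : ℕ → ℕ) (j t h : ℕ) : Prop := ∃ p : ℕ → ℕ, (∀ i < j, p i ≤ n i ∧ n i ≤ 2 * p i + 3) ∧
  t + ∑ i ∈ range j, n i ≤ 2 * ∑ i ∈ range j, p i + 3 * j ∧ h ≤ ∑ i ∈ range j, hap 0 (n i) (p i)

theorem main (k : ℕ) (hm : 0 < m) (hn : ∀ i < m, 0 < n i) (hk : 0 < k) :
    (∃ (p : ℕ → ℕ) (W : ℤ), W ≤ k ∧
      W + (∑ i ∈ range m, n i : ℕ) = 2 * (∑ i ∈ range m, p i : ℕ) ∧ Good m n W p) ↔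
    (2 ≤ k ∨ (∑ i ∈ range m, n i) % 2 = 1 ∨ Feas n m (3 * m) ((∑ i ∈ range m, n i) / 2)) := by
  constructor
  · rintro ⟨p, W, h1, h2, g1, g2⟩
    by_contra c
    push Not at c
    obtain ⟨q, hq, e⟩ := between m p n ((∑ i ∈ range m, n i) / 2) g1 (by omega) (by omega)
    refine c.2.2 ⟨fun i => max (q i) (n i / 2 - 1), fun i hi => ?_, ?_, ?_⟩ <;>
      beta_reduce
    · have := hq i hi; omega
    · have : ∑ i ∈ range m, q i ≤ ∑ i ∈ range m, max (q i) (n i / 2 - 1) :=
        sum_le_sum fun i _ => le_max_left _ _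
      omega
    · have : ∑ i ∈ range m, hap W (n i) (p i) ≤
          ∑ i ∈ range m, hap 0 (n i) (max (q i) (n i / 2 - 1)) := sum_le_sum fun i hi => by
        have a := hq i (mem_range.1 hi)
        have b := single_le_sum (f := fun i => q i - p i) (fun _ _ => Nat.zero_le _) hi
        rw [sum_tsub_distrib _ fun i hi => (hq i (mem_range.1 hi)).1] at b
        unfold hap; split_ifs <;> omega
      omega
  · intro h
    by_cases c : (∑ i ∈ range m, n i) % 2 = 1
    · have a : ∑ i ∈ range m, n i ≤ 2 * ∑ i ∈ range m, (n i + 1) / 2 := by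
        rw [mul_sum]; exact sum_le_sum fun i _ => by omega
      obtain ⟨q, e, g⟩ := down (n := n) (m := m) 1 (fun i => (n i + 1) / 2) ⟨fun i _ => by beta_reduce; omega,
        a.trans (Nat.mul_le_mul_left _ (sum_le_sum fun i _ => by
          beta_reduce; unfold hap; split_ifs <;> omega))⟩
        (by omega) (by omega)
      exact ⟨q, _, by omega, e, g⟩
    rcases h with h | h | ⟨p, h1, h2, h3⟩
    · have a : ∑ i ∈ range m, (n i + 1) ≤ 2 * ∑ i ∈ range m, (n i / 2 + 1) := by
        rw [mul_sum]; exact sum_le_sum fun i _ => by omega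
      rw [sum_add_distrib, sum_const, card_range, smul_eq_mul] at a
      obtain ⟨q, e, g⟩ := down (n := n) (m := m) 2 (fun i => n i / 2 + 1) ⟨fun i hi => by
        have := hn i hi; beta_reduce; omega, (Nat.le_of_add_right_le a).trans (Nat.mul_le_mul_left _
          (sum_le_sum fun i hi => by
            have := hn i (mem_range.1 hi); beta_reduce; unfold hap; split_ifs <;> omega))⟩
        (by omega) (by omega)
      exact ⟨q, _, by omega, e, g⟩
    · exact absurd h c
    · obtain ⟨q, e, g⟩ := down (n := n) (m := m) 0 p ⟨fun i hi => (h1 i hi).1, by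
        simp only [Nat.cast_zero]; omega⟩ (by omega) (by omega)
      exact ⟨q, _, by omega, e, g⟩

theorem feas_succ (j t h : ℕ) : Feas n (j + 1) t h ↔
    (2 ≤ n j ∧ Feas n j (t - (1 - n j % 2)) (h - n j)) ∨
      Feas n j (t - (3 - n j % 2)) (h - n j / 2) ∨ Feas n j (t - (n j + 3)) h := by
  have up : ∀ q s g, q ≤ n j → n j + s ≤ 2 * q + 3 → g ≤ hap 0 (n j) q →
      Feas n j (t - s) (h - g) → Feas n (j + 1) t h := by
    rintro q s g a b c ⟨p, h1, h2, h3⟩
    refine ⟨fun i => if i < j then p i else q, fun i hi => ?_, ?_, ?_⟩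
    · by_cases d : i < j
      · simpa [d] using h1 i d
      · obtain rfl : i = j := by omega
        simp only [d, if_false]; omega
    · rw [sum_range_succ, sum_range_succ,
        sum_congr (g := fun i => p i) rfl fun i hi => if_pos (mem_range.1 hi)]
      simp only [lt_irrefl, if_false]; omega
    · rw [sum_range_succ, sum_congr (g := fun i => hap 0 (n i) (p i)) rfl fun i hi => by
        simp only [mem_range.1 hi, if_true]]
      simp only [lt_irrefl, if_false]; omega
  constructor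
  · rintro ⟨p, h1, h2, h3⟩
    rw [sum_range_succ] at h3
    rw [sum_range_succ, sum_range_succ] at h2
    have a := h1 j (by omega)
    have b : ∑ i ∈ range j, n i ≤ ∑ i ∈ range j, (2 * p i + 3) :=
      sum_le_sum fun i hi => (h1 i (by simp at hi; omega)).2
    rw [sum_add_distrib, ← mul_sum, sum_const, card_range, smul_eq_mul] at b
    have h4 : ∀ i < j, p i ≤ n i ∧ n i ≤ 2 * p i + 3 := fun i hi => h1 i (by omega)
    rw [hap] at h3
    split_ifs at h3
    · exact .inl ⟨by omega, p, h4, by omega, by omega⟩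
    · exact .inr (.inl ⟨p, h4, by omega, by omega⟩)
    · exact .inr (.inr ⟨p, h4, by omega, by omega⟩)
  · rintro (⟨a, b⟩ | b | b)
    · exact up (n j / 2 - 1) _ _ (by omega) (by omega) (by unfold hap; split_ifs <;> omega) b
    · exact up (n j / 2) _ _ (by omega) (by omega) (by unfold hap; split_ifs <;> omega) b
    · exact up (n j) _ 0 (by omega) (by omega) (by omega) b
end

def opt (o : List Bn) (u : ℕ) (g : Bn) : Bn :=
  bif ble (o.getD u ⟨0⟩) ⟨0⟩ then ⟨0⟩ else badd (o.getD u ⟨0⟩) g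
def bmax (a b : Bn) : Bn := bif ble a b then b else a
def bmin (a b : Bn) : Bn := bif ble a b then a else b
def step (m : ℕ) (B : Bn) (o : List Bn) (n : Bn) : List Bn :=
  (List.range (3 * m + 1)).map fun t => bmin B (bmax
    (bif ble ⟨2⟩ n then opt o (t - (1 - par n)) n else ⟨0⟩)
    (bmax (opt o (t - (3 - par n)) (half n)) (opt o (t - (cap n (3 * m) + 3)) ⟨0⟩)))
def ini (m : ℕ) : List Bn := (List.range (3 * m + 1)).map fun t => if t = 0 then ⟨1⟩ else ⟨0⟩

theorem lt_opt (o : List Bn) (u : ℕ) (g : Bn) (h : ℕ) :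
    h < (opt o u g).v ↔ h - g.v < (o.getD u ⟨0⟩).v := by
  unfold opt ble
  by_cases c : (o.getD u ⟨0⟩).v ≤ 0
  · rw [decide_eq_true c]; simp only [cond_true]; omega
  · rw [decide_eq_false c]; simp only [cond_false, badd]; omega

theorem bmax_v (a b : Bn) : (bmax a b).v = max a.v b.v := by
  unfold bmax ble; by_cases c : a.v ≤ b.v <;> simp [c]; omega
theorem bmin_v (a b : Bn) : (bmin a b).v = min a.v b.v := by
  unfold bmin ble; by_cases c : a.v ≤ b.v <;> simp [c]; omega

theorem dp (m : ℕ) (B : Bn) (n : ℕ → ℕ) (j : ℕ) : ∀ t ≤ 3 * m, ∀ h < B.v, Feas n j t h ↔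
    h < (((List.range j).foldl (fun o i => step m B o ⟨n i⟩) (ini m)).getD t ⟨0⟩).v := by
  induction j with
  | zero =>
    intro t ht h _
    have : t < 3 * m + 1 := by omega
    by_cases c : t = 0 <;> simp [Feas, ini, this, c]
  | succ j ih =>
    intro t ht h hh
    have : t < 3 * m + 1 := by omega
    rw [List.range_succ, List.foldl_append, feas_succ, ih _ (by omega) _ (by omega),
      ih _ (by omega) _ (by omega), ih _ (by omega) _ (by omega)]
    generalize (List.range j).foldl (fun o i => step m B o ⟨n i⟩) (ini m) = o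
    have e : t - (n j + 3) = t - (min (n j) (3 * m) + 3) := by omega
    simp only [List.foldl_cons, List.foldl_nil, step, List.getD_eq_getElem?_getD (l := List.map _ _),
      List.getElem?_map, List.getElem?_range this, Option.map_some, Option.getD_some, bmin_v,
      bmax_v, lt_min_iff, lt_max_iff, hh, true_and, lt_opt, par, half, cap, e, Nat.sub_zero, ble]
    by_cases c : 2 ≤ n j <;> simp [c, lt_opt]

def tot (y : List (List Bool) × List Bool) : Bn :=
  bsum ((List.range y.1.length).map fun i => ⟨bin (y.1.getD i [])⟩)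
def tbl (y : List (List Bool) × List Bool) : List Bn := (List.range y.1.length).foldl
  (fun o i => step y.1.length (badd (tot y) ⟨1⟩) o ⟨bin (y.1.getD i [])⟩) (ini y.1.length)
def alg (y : List (List Bool) × List Bool) : Bool :=
  !y.1.isEmpty && (y.1.all fun n => ble ⟨1⟩ ⟨bin n⟩) && ble ⟨1⟩ ⟨bin y.2⟩ &&
    (ble ⟨2⟩ ⟨bin y.2⟩ || par (tot y) == 1 ||
      ble (badd (half (tot y)) ⟨1⟩) ((tbl y).getD (3 * y.1.length) ⟨0⟩))

theorem pt_alg : PT alg := by
  have h0 : PT tot := by unfold tot; fun_prop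
  have h1 : PT tbl := by
    refine PT.foldl_inv (by fun_prop) (by unfold ini; fun_prop)
      (by unfold step bmin bmax opt; fun_prop)
      (fun y o => o.length ≤ 3 * y.1.length + 1 ∧ ∀ e ∈ o, e.v ≤ (badd (tot y) ⟨1⟩).v)
      (fun y => List.replicate (3 * y.1.length + 1) (badd (tot y) ⟨1⟩)) (by fun_prop)
      (fun y => ⟨by simp [ini], fun e he => ?_⟩) (fun y c b _ _ => ⟨by simp [step], fun e he => ?_⟩)
      (fun y c h => sz_list_le _ _ _ h.1 fun e he => sz_mono (h.2 e he))
    · obtain ⟨t, -, rfl⟩ := List.mem_map.1 he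
      split_ifs <;> simp [badd]
    · obtain ⟨t, -, rfl⟩ := List.mem_map.1 he
      rw [bmin_v]; exact min_le_left _ _
  unfold alg; fun_prop

theorem alg_iff (y : List (List Bool) × List Bool) : MAJ y ↔ alg y = true := by
  have e : (tot y).v = ∑ i ∈ range y.1.length, bin (y.1.getD i []) := by
    simp only [tot, bsum, List.map_map]; rfl
  have d := dp y.1.length (badd (tot y) ⟨1⟩) (fun i => bin (y.1.getD i [])) y.1.length _ le_rfl
    ((tot y).v / 2) (by simp only [badd]; omega)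
  simp only [MAJ, alg, Bool.and_eq_true, Bool.or_eq_true, ble, decide_eq_true_eq, List.all_eq_true,
    beq_iff_eq, par, badd, half, Bool.not_eq_true', List.isEmpty_eq_false_iff, Nat.succ_le_iff,
    and_assoc, or_assoc]
  refine and_congr_right fun a => and_congr_right fun b => and_congr_right fun c => ?_
  rw [key (n := fun i => bin (y.1.getD i [])), main _ (List.length_pos_iff.2 a) (fun i hi => b _
    (by rw [List.getD_eq_getElem _ _ hi]; exact List.getElem_mem hi)) c, ← e, d]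
  rfl

theorem result : InP MAJ ∧ (NPHard MAJ → ∀ L : List Bool → Prop, InNP L → InP L) := by
  refine ⟨pt_alg.inP alg_iff, fun h L hL => ?_⟩
  obtain ⟨f, hf, e⟩ := Pool.Agent.H21.Sim.hard h L hL
  exact (pt_alg.comp hf).inP fun x => (e x).trans (alg_iff _)

end Pool.Agent.Results.MP_1ffe94_lc.InP
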